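import Pool.Agent.LibOrth.Prod

set_option autoImplicit false

open Filter Topology
open scoped ContDiff

namespace Pool.Agent.Results.MP_b38318_gt.ProductCounterexample

open Pool.Agent.LibOrth

/-- A Riemannian manifold given in one global chart: a nonempty open subset `U` of `ℝ^ι` with a
smooth Riemannian metric `g`, that is a smooth field of positive definite symmetric matrices
(`g x i j` is the value of the metric on the coordinate fields `i`, `j` at `x`). Its dimension is
the number of elements of `ι`. -/
structure RiemDomain (ι : Type) [Fintype ι] where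
  U : Set (ι → ℝ)
  isOpen_U : IsOpen U
  nonempty_U : U.Nonempty
  g : (ι → ℝ) → Matrix ι ι ℝ
  smooth_g : ∀ i j, ContDiffOn ℝ ∞ (fun x => g x i j) U
  posDef_g : ∀ x ∈ U, (g x).PosDef

/-- The value at `p` of the metric on the tangent vectors `u`, `v`. -/
def RiemDomain.inner {ι : Type} [Fintype ι] (M : RiemDomain ι) (p u v : ι → ℝ) : ℝ :=
  u ⬝ᵥ (M.g p).mulVec v

/-- The `i`-th coordinate vector field of the chart `φ`, as a function of the coordinates `x`:
the partial derivative of the inverse chart. -/
noncomputable def coordField {ι : Type} [Fintype ι] [DecidableEq ι]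
    (φ : OpenPartialHomeomorph (ι → ℝ) (ι → ℝ)) (i : ι) (x : ι → ℝ) : ι → ℝ :=
  fderiv ℝ φ.symm x (Pi.single i 1)

/-- `M` admits orthogonal coordinates: every point of `M` lies in the domain of a smooth local
chart `φ` of `M` (smooth with smooth inverse) whose coordinate vector fields are pairwise
orthogonal on the whole domain of the chart, that is, in which the metric is diagonal. -/
def AdmitsOrthogonalCoordinates {ι : Type} [Fintype ι] [DecidableEq ι] (M : RiemDomain ι) :
    Prop :=
  ∀ p ∈ M.U, ∃ φ : OpenPartialHomeomorph (ι → ℝ) (ι → ℝ),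
    p ∈ φ.source ∧ φ.source ⊆ M.U ∧
    ContDiffOn ℝ ∞ φ φ.source ∧ ContDiffOn ℝ ∞ φ.symm φ.target ∧
    ∀ x ∈ φ.target, ∀ i j, i ≠ j →
      M.inner (φ.symm x) (coordField φ i x) (coordField φ j x) = 0

lemma fromBlocks_quad {ι κ : Type} [Fintype ι] [Fintype κ] (A : Matrix ι ι ℝ) (B : Matrix κ κ ℝ)
    (u v : ι ⊕ κ → ℝ) :
    u ⬝ᵥ (Matrix.fromBlocks A 0 0 B).mulVec v
      = (fun i => u (Sum.inl i)) ⬝ᵥ A.mulVec (fun i => v (Sum.inl i))
        + (fun k => u (Sum.inr k)) ⬝ᵥ B.mulVec (fun k => v (Sum.inr k)) := by
  simp [Matrix.mulVec, dotProduct, Fintype.sum_sum_type]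

/-- The Riemannian product, on the product open set, with the block diagonal metric. -/
def RiemDomain.prod {ι κ : Type} [Fintype ι] [Fintype κ] (M : RiemDomain ι) (N : RiemDomain κ) :
    RiemDomain (ι ⊕ κ) where
  U := {x | (fun i => x (Sum.inl i)) ∈ M.U ∧ (fun k => x (Sum.inr k)) ∈ N.U}
  isOpen_U := (M.isOpen_U.preimage (by fun_prop)).inter (N.isOpen_U.preimage (by fun_prop))
  nonempty_U := by
    obtain ⟨a, ha⟩ := M.nonempty_U
    obtain ⟨b, hb⟩ := N.nonempty_U
    exact ⟨Sum.elim a b, ha, hb⟩
  g := fun x => Matrix.fromBlocks (M.g (fun i => x (Sum.inl i))) 0 0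
    (N.g (fun k => x (Sum.inr k)))
  smooth_g := by
    intro i j
    rcases i with i | i <;> rcases j with j | j
    · exact (M.smooth_g i j).comp (t := M.U) (f := fun x : ι ⊕ κ → ℝ => fun i => x (Sum.inl i))
        (by fun_prop) (fun x hx => hx.1)
    · exact contDiffOn_const
    · exact contDiffOn_const
    · exact (N.smooth_g i j).comp (t := N.U) (f := fun x : ι ⊕ κ → ℝ => fun k => x (Sum.inr k))
        (by fun_prop) (fun x hx => hx.2)
  posDef_g := by
    intro x hx
    have h1 := M.posDef_g _ hx.1
    have h2 := N.posDef_g _ hx.2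
    apply Matrix.PosDef.of_dotProduct_mulVec_pos
    · have e1 : (M.g (fun i => x (Sum.inl i))).conjTranspose = _ := h1.isHermitian
      have e2 : (N.g (fun k => x (Sum.inr k))).conjTranspose = _ := h2.isHermitian
      change (Matrix.fromBlocks _ _ _ _).conjTranspose = _
      rw [Matrix.fromBlocks_conjTranspose, e1, e2]
      simp
    · intro v hv
      have hstar : star v = v := by
        funext i
        simp
      rw [hstar, fromBlocks_quad]
      by_cases hz : (fun i => v (Sum.inl i)) = 0
      · have hz2 : (fun k => v (Sum.inr k)) ≠ 0 := by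
          intro h
          apply hv
          funext i
          rcases i with i | i
          · exact congrFun hz i
          · exact congrFun h i
        have := h2.dotProduct_mulVec_pos hz2
        rw [hz]
        simpa using this
      · have a1 := h1.dotProduct_mulVec_pos hz
        have a2 := h2.posSemidef.dotProduct_mulVec_nonneg (fun k => v (Sum.inr k))
        have s1 : star (fun i => v (Sum.inl i)) = fun i => v (Sum.inl i) := by funext i; simp
        have s2 : star (fun i => v (Sum.inr i)) = fun i => v (Sum.inr i) := by funext i; simp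
        rw [s1] at a1
        rw [s2] at a2
        linarith

/-- The real line with its standard metric `dt²`. -/
def realLine : RiemDomain (Fin 1) where
  U := Set.univ
  isOpen_U := isOpen_univ
  nonempty_U := Set.univ_nonempty
  g := fun _ => 1
  smooth_g := fun _ _ => contDiffOn_const
  posDef_g := fun _ _ => Matrix.PosDef.one

lemma gradPhi_smooth (a : Fin 4) : ContDiff ℝ ∞ (fun y : E4 => gradPhi y a) := by
  fin_cases a
  · simp only [gradPhi]
    change ContDiff ℝ ∞ (fun y : E4 => 1 + 3 * y 0 ^ 2 * y 1 + y 3 ^ 3)
    fun_prop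
  · change ContDiff ℝ ∞ (fun y : E4 => 1 + y 0 ^ 3 + 3 * y 1 ^ 2 * y 2)
    fun_prop
  · change ContDiff ℝ ∞ (fun y : E4 => 1 + y 1 ^ 3 + 3 * y 2 ^ 2 * y 3)
    fun_prop
  · change ContDiff ℝ ∞ (fun y : E4 => 1 + y 2 ^ 3 + 3 * y 3 ^ 2 * y 0)
    fun_prop

/-- The four dimensional factor. -/
noncomputable def factor : RiemDomain (Fin 4) where
  U := {y | ∀ a, 0 < gradPhi y a}
  isOpen_U := by
    have : {y : E4 | ∀ a, 0 < gradPhi y a} = ⋂ a, {y | 0 < gradPhi y a} := by
      ext y; simp
    rw [this]
    exact isOpen_iInter_of_finite (fun a =>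
      isOpen_lt continuous_const (gradPhi_smooth a).continuous)
  nonempty_U := by
    refine ⟨0, fun a => ?_⟩
    fin_cases a <;> simp [gradPhi]
  g := g4
  smooth_g := by
    intro i j
    have hs : ContDiff ℝ ∞ sg := by
      unfold sg
      exact contDiff_const.add (ContDiff.sum (fun a _ => gradPhi_smooth a))
    have h1 : ContDiff ℝ ∞ (fun y : E4 => (if i = j then gradPhi y i else 0)
        + gradPhi y i * gradPhi y j) := by
      by_cases hij : i = j
      · simp only [hij, if_true]
        exact (gradPhi_smooth j).add ((gradPhi_smooth j).mul (gradPhi_smooth j))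
      · simp only [hij, if_false, zero_add]
        exact (gradPhi_smooth i).mul (gradPhi_smooth j)
    exact h1.contDiffOn.div hs.contDiffOn (fun y hy => (sg_pos hy).ne')
  posDef_g := by
    intro y hy
    apply Matrix.PosDef.of_dotProduct_mulVec_pos
    · ext i j
      simp only [Matrix.conjTranspose_apply, g4, Matrix.of_apply, star_trivial]
      by_cases hij : i = j
      · subst hij; rfl
      · simp [hij, Ne.symm hij, mul_comm]
    · intro v hv
      have hstar : star v = v := by
        funext i
        simp
      rw [hstar, g4_quad]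
      apply div_pos _ (sg_pos hy)
      obtain ⟨b, hb⟩ : ∃ b, v b ≠ 0 := by
        by_contra hc
        push Not at hc
        exact hv (funext hc)
      have h1 : 0 < ∑ a, gradPhi y a * v a * v a := by
        apply Finset.sum_pos'
        · intro a _
          have := mul_nonneg (hy a).le (mul_self_nonneg (v a))
          linarith
        · refine ⟨b, Finset.mem_univ b, ?_⟩
          have := mul_pos (hy b) (mul_self_pos.2 hb)
          linarith
      have h2 := mul_self_nonneg (∑ a, gradPhi y a * v a)
      linarith

lemma V5_orth {y : E4} (hy : ∀ a, 0 < gradPhi y a) {i j : Fin 4 ⊕ Fin 1} (hij : i ≠ j) :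
    (fun a => V5 y i (Sum.inl a)) ⬝ᵥ (g4 y).mulVec (fun a => V5 y j (Sum.inl a))
      + (fun a => V5 y i (Sum.inr a)) ⬝ᵥ (1 : Matrix (Fin 1) (Fin 1) ℝ).mulVec
        (fun a => V5 y j (Sum.inr a)) = 0 := by
  have hs := (sg_pos hy).ne'
  have hne := fun a => (hy a).ne'
  -- `∑ φ_a u_a`
  have e1 : ∀ i : Fin 4, ∑ a, gradPhi y a * V5 y (Sum.inl i) (Sum.inl a) = 1 := by
    intro i
    simp only [V5, Sum.elim_inl, mul_sub, mul_ite, mul_zero, mul_one]
    rw [Finset.sum_sub_distrib]
    simp only [Finset.sum_ite_eq', Finset.mem_univ, if_true]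
    have : gradPhi y i * (sg y / gradPhi y i) = sg y := by
      field_simp [hne i]
    rw [this]
    unfold sg
    ring
  have e2 : ∀ i : Fin 1, ∑ a, gradPhi y a * V5 y (Sum.inr i) (Sum.inl a) = 1 - sg y := by
    intro i
    simp [V5, sg]
  rw [g4_quad]
  simp only [Matrix.one_mulVec]
  rcases i with i | i <;> rcases j with j | j
  · have hij' : i ≠ j := fun h => hij (by rw [h])
    rw [e1, e1]
    have e3 : ∑ a, gradPhi y a * V5 y (Sum.inl i) (Sum.inl a) * V5 y (Sum.inl j) (Sum.inl a)
        = - sg y - 1 := by
      have : ∀ a, gradPhi y a * V5 y (Sum.inl i) (Sum.inl a) * V5 y (Sum.inl j) (Sum.inl a)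
          = gradPhi y a - (if a = i then sg y else 0) - (if a = j then sg y else 0) := by
        intro a
        by_cases h1 : a = i
        · subst h1
          simp only [V5, Sum.elim_inl, if_true, hij', if_false]
          have : gradPhi y a * (sg y / gradPhi y a) = sg y := by
            field_simp [hne a]
          linear_combination -this
        · by_cases h2 : a = j
          · subst h2
            simp only [V5, Sum.elim_inl, if_true, h1, if_false]
            have : gradPhi y a * (sg y / gradPhi y a) = sg y := by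
              field_simp [hne a]
            linear_combination -this
          · simp only [V5, Sum.elim_inl, h1, h2, if_false]
            ring
      simp only [this]
      rw [Finset.sum_sub_distrib, Finset.sum_sub_distrib]
      simp only [Finset.sum_ite_eq', Finset.mem_univ, if_true]
      unfold sg
      ring
    rw [e3]
    simp only [V5, Sum.elim_inl, Sum.elim_inr, dotProduct, Finset.sum_const, Finset.card_univ,
      Fintype.card_fin]
    field_simp
    ring
  · rw [e1, e2]
    have e3 : ∑ a, gradPhi y a * V5 y (Sum.inl i) (Sum.inl a) * V5 y (Sum.inr j) (Sum.inl a)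
        = - 1 := by
      have : ∀ a, gradPhi y a * V5 y (Sum.inl i) (Sum.inl a) * V5 y (Sum.inr j) (Sum.inl a)
          = - (gradPhi y a * V5 y (Sum.inl i) (Sum.inl a)) := by
        intro a
        simp [V5]
      simp only [this]
      rw [Finset.sum_neg_distrib, e1]
    rw [e3]
    simp only [V5, Sum.elim_inl, Sum.elim_inr, dotProduct, Finset.sum_const, Finset.card_univ,
      Fintype.card_fin]
    field_simp
    ring
  · rw [e1, e2]
    have e3 : ∑ a, gradPhi y a * V5 y (Sum.inr i) (Sum.inl a) * V5 y (Sum.inl j) (Sum.inl a)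
        = - 1 := by
      have : ∀ a, gradPhi y a * V5 y (Sum.inr i) (Sum.inl a) * V5 y (Sum.inl j) (Sum.inl a)
          = - (gradPhi y a * V5 y (Sum.inl j) (Sum.inl a)) := by
        intro a
        simp [V5]
      simp only [this]
      rw [Finset.sum_neg_distrib, e1]
    rw [e3]
    simp only [V5, Sum.elim_inl, Sum.elim_inr, dotProduct, Finset.sum_const, Finset.card_univ,
      Fintype.card_fin]
    field_simp
    ring
  · exact absurd (by rw [Subsingleton.elim i j]) hij

theorem product_admits : AdmitsOrthogonalCoordinates (factor.prod realLine) := by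
  intro p hp
  obtain ⟨φ, h1, h2, h3, h4, h5⟩ := exists_chart factor.isOpen_U (fun y hy => hy) (p := p) hp.1
  refine ⟨φ, h1, fun q hq => ⟨h2 q hq, Set.mem_univ _⟩, h3, h4, ?_⟩
  intro x hx i j hij
  have hy : ∀ a, 0 < gradPhi (pr (φ.symm x)) a := h2 _ (φ.map_target hx)
  unfold coordField
  rw [h5 x hx i, h5 x hx j]
  unfold RiemDomain.inner
  change _ ⬝ᵥ (Matrix.fromBlocks (g4 (pr (φ.symm x))) 0 0 (1 : Matrix (Fin 1) (Fin 1) ℝ)).mulVec _
    = 0
  rw [Matrix.mulVec_smul, smul_dotProduct, dotProduct_smul, fromBlocks_quad, V5_orth hy hij]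
  simp

theorem factor_not : ¬ AdmitsOrthogonalCoordinates factor := by
  intro h
  obtain ⟨φ, h1, h2, h3, h4, h5⟩ := h 0 (by
    intro a
    fin_cases a <;> simp [gradPhi])
  refine no_orth_chart φ h1 h3 h4 ?_
  intro x hx k l hkl
  have := h5 x hx k l hkl
  unfold RiemDomain.inner coordField at this
  change _ ⬝ᵥ (g4 (φ.symm x)).mulVec _ = 0 at this
  rw [g4_quad, div_eq_zero_iff] at this
  rcases this with h | h
  · exact h
  · have hy : ∀ a, 0 < gradPhi (φ.symm x) a := h2 (φ.map_target hx)
    exact absurd h (sg_pos hy).ne'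

/-- There is a four dimensional Riemannian manifold `M` (an open subset of `ℝ⁴` with a smooth
metric) such that the Riemannian product of `M` with the real line admits orthogonal coordinates
while `M` does not. -/
theorem result : ∃ M : RiemDomain (Fin 4),
    AdmitsOrthogonalCoordinates (M.prod realLine) ∧ ¬ AdmitsOrthogonalCoordinates M :=
  ⟨factor, product_admits, factor_not⟩

end Pool.Agent.Results.MP_b38318_gt.ProductCounterexample
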